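import Pool.Agent.W206.ND.Stm

/-! Project ND (owner helper206): the part BD. -/

set_option autoImplicit false

namespace Pool.Agent.W351.ND.BD

open Pool.Agent.W206.ND

theorem ee_add (a b : ℝ) : ee (a + b) = ee a * ee b := by
  unfold ee
  rw [← Complex.exp_add]
  congr 1
  push_cast
  ring

theorem ee_int (n : ℤ) : ee (n : ℝ) = 1 := by
  unfold ee
  have h := Complex.exp_int_mul_two_pi_mul_I n
  rw [← h]
  congr 1
  push_cast
  ring

theorem ee_norm (a : ℝ) : ‖ee a‖ = 1 := by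
  unfold ee
  have h : (2 * Real.pi * Complex.I * (a : ℂ)) = ((2 * Real.pi * a : ℝ) : ℂ) * Complex.I := by
    push_cast; ring
  rw [h, Complex.norm_exp_ofReal_mul_I]

theorem ee_nat_mul (k : ℕ) (a : ℝ) : ee (k * a) = ee a ^ k := by
  unfold ee
  rw [← Complex.exp_nat_mul]
  congr 1
  push_cast
  ring

theorem norm_sub_one (a : ℝ) : ‖ee a - 1‖ = 2 * |Real.sin (Real.pi * a)| := by
  have h : (2 * Real.pi * Complex.I * (a : ℂ)) = Complex.I * ((2 * Real.pi * a : ℝ) : ℂ) := by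
    push_cast; ring
  rw [ee, h, Complex.norm_exp_I_mul_ofReal_sub_one, norm_mul, Real.norm_eq_abs, Real.norm_eq_abs,
    abs_of_pos (by norm_num : (0 : ℝ) < 2)]
  congr 3
  ring

theorem ee_sub_int (a : ℝ) (n : ℤ) : ee (a - n) = ee a := by
  have h := ee_add (a - n) n
  rw [ee_int, mul_one, sub_add_cancel] at h
  exact h.symm

theorem up (a : ℝ) (n : ℤ) : ‖ee a - 1‖ ≤ 2 * Real.pi * |a - n| := by
  rw [← ee_sub_int a n, norm_sub_one]
  have h1 : |Real.sin (Real.pi * (a - n))| ≤ |Real.pi * (a - n)| := Real.abs_sin_le_abs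
  rw [abs_mul, abs_of_pos Real.pi_pos] at h1
  linarith

theorem low_small (a : ℝ) (h : |a| ≤ 1 / 2) : 4 * |a| ≤ ‖ee a - 1‖ := by
  rw [norm_sub_one]
  have hpi := Real.pi_pos
  have h2 := Real.mul_le_sin (x := Real.pi * |a|) (by positivity) (by nlinarith)
  have h3 : 2 / Real.pi * (Real.pi * |a|) = 2 * |a| := by field_simp
  rw [h3] at h2
  have h1 : Real.sin (Real.pi * |a|) ≤ |Real.sin (Real.pi * a)| := by
    rcases abs_cases a with ⟨h4, _⟩ | ⟨h4, _⟩
    · rw [h4]; exact le_abs_self _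
    · rw [h4, mul_neg, Real.sin_neg]; exact neg_le_abs _
  linarith

theorem low (a δ : ℝ) (h : ∀ n : ℤ, δ ≤ |a - n|) : 4 * δ ≤ ‖ee a - 1‖ := by
  have h1 := low_small (a - round a) (abs_sub_round a)
  rw [ee_sub_int] at h1
  linarith [h (round a)]

theorem sum_norm (s z₀ v : ℝ) (m : ℕ) (h : 0 < ‖ee (-(s / v)) - 1‖) :
    ‖∑ k ∈ Finset.range m, ee (-(s * (z₀ + k / v)))‖ =
      ‖ee (m * (-(s / v))) - 1‖ / ‖ee (-(s / v)) - 1‖ := by
  have h1 : ∀ k : ℕ, ee (-(s * (z₀ + k / v))) = ee (-(s * z₀)) * ee (-(s / v)) ^ k := by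
    intro k
    rw [← ee_nat_mul, ← ee_add]
    congr 1
    ring
  have hne : ee (-(s / v)) ≠ 1 := by
    intro h2
    rw [h2, sub_self, norm_zero] at h
    exact lt_irrefl _ h
  rw [Finset.sum_congr rfl fun k _ => h1 k, ← Finset.mul_sum, norm_mul, ee_norm, one_mul,
    geom_sum_eq hne, norm_div, ee_nat_mul]

theorem main : S_BD := by
  intro b t hb ht
  have ht0 : t ≠ 0 := by
    rintro rfl
    exact ht (dvd_zero _)
  set T : ℝ := |(t : ℝ)| with hT
  have hTn : T = (t.natAbs : ℝ) := by rw [hT, Nat.cast_natAbs, Int.cast_abs]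
  have hT1 : 1 ≤ T := by
    rw [hTn]
    exact_mod_cast Nat.one_le_iff_ne_zero.2 (Int.natAbs_ne_zero.2 ht0)
  have hbR : (2 : ℝ) ≤ b := by exact_mod_cast hb
  refine ⟨2 + 4 * T, 8 * t.natAbs ^ 2 + 1, ?_⟩
  intro L i m hL hi hiL h1 h2 z₀
  have hpL : 8 * t.natAbs ^ 2 + 1 < b ^ L :=
    lt_of_le_of_lt hL (lt_of_lt_of_le Nat.lt_two_pow_self (Nat.pow_le_pow_left hb L))
  have hv : ((b ^ L - 1 : ℕ) : ℝ) = (b : ℝ) ^ L - 1 := by
    rw [Nat.cast_sub (by omega)]
    push_cast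
    ring
  have h1' : ((b ^ L - 1 : ℕ) : ℝ) - b < b * m := by exact_mod_cast h1
  have h2' : (b : ℝ) * m < ((b ^ L - 1 : ℕ) : ℝ) + b := by exact_mod_cast h2
  have h8 : 8 * T ^ 2 + 1 < (b : ℝ) ^ L := by
    rw [hTn]
    exact_mod_cast hpL
  rw [hv] at h1' h2' ⊢
  set v : ℝ := (b : ℝ) ^ L - 1 with hvd
  have hv8 : 8 * T ^ 2 < v := by linarith
  have hv0 : 0 < v := by nlinarith
  have hbi : (0 : ℝ) < (b : ℝ) ^ i := by positivity
  have habs : |-(t * (b : ℝ) ^ i / v)| = T * (b : ℝ) ^ i / v := by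
    rw [abs_neg, abs_div, abs_mul, abs_of_pos hbi, abs_of_pos hv0]
  by_cases hc : T * (b : ℝ) ^ i ≤ v / 2
  · have hlow : 4 * (T * (b : ℝ) ^ i / v) ≤ ‖ee (-(t * (b : ℝ) ^ i / v)) - 1‖ := by
      rw [← habs]
      refine low_small _ ?_
      rw [habs, div_le_iff₀ hv0]
      linarith
    have hpos : 0 < T * (b : ℝ) ^ i / v := by positivity
    have hpos' : 0 < ‖ee (-(t * (b : ℝ) ^ i / v)) - 1‖ := by linarith
    rw [sum_norm _ _ _ _ hpos']
    have hup := up (m * (-(t * (b : ℝ) ^ i / v))) (-(t * (b : ℤ) ^ (i - 1)))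
    have he : (m : ℝ) * (-(t * (b : ℝ) ^ i / v)) - ((-(t * (b : ℤ) ^ (i - 1)) : ℤ) : ℝ) =
        t * (b : ℝ) ^ (i - 1) * ((v - b * m) / v) := by
      have hpi : (b : ℝ) ^ i = (b : ℝ) ^ (i - 1) * b := by
        rw [← pow_succ]
        congr 1
        omega
      rw [hpi]
      push_cast
      field_simp
      ring
    have hle : |(m : ℝ) * (-(t * (b : ℝ) ^ i / v)) - ((-(t * (b : ℤ) ^ (i - 1)) : ℤ) : ℝ)| ≤
        T * (b : ℝ) ^ i / v := by
      rw [he, abs_mul, abs_mul, abs_div, abs_of_pos hv0,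
        abs_of_pos (by positivity : (0 : ℝ) < (b : ℝ) ^ (i - 1))]
      have h3 : |v - b * m| ≤ b := by
        rw [abs_le]
        constructor <;> linarith
      have hpi : (b : ℝ) ^ i = (b : ℝ) ^ (i - 1) * b := by
        rw [← pow_succ]
        congr 1
        omega
      calc T * (b : ℝ) ^ (i - 1) * (|v - b * m| / v)
          ≤ T * (b : ℝ) ^ (i - 1) * (b / v) := by gcongr
        _ = T * (b : ℝ) ^ i / v := by rw [hpi]; ring
    rw [div_le_iff₀ hpos']
    have hpi4 := Real.pi_lt_four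
    have hpi0 := Real.pi_pos
    calc ‖ee (m * (-(t * (b : ℝ) ^ i / v))) - 1‖
        ≤ 2 * Real.pi * (T * (b : ℝ) ^ i / v) := hup.trans (by gcongr)
      _ ≤ 2 * (4 * (T * (b : ℝ) ^ i / v)) := by nlinarith
      _ ≤ (2 + 4 * T) * (4 * (T * (b : ℝ) ^ i / v)) := by gcongr; linarith
      _ ≤ (2 + 4 * T) * ‖ee (-(t * (b : ℝ) ^ i / v)) - 1‖ := by gcongr
  · rw [not_le] at hc
    have hj : (b : ℝ) ^ L = (b : ℝ) ^ i * (b : ℝ) ^ (L - i) := by
      rw [← pow_add]
      congr 1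
      omega
    set B : ℝ := (b : ℝ) ^ (L - i) with hB
    have hB0 : 0 < B := by positivity
    have hB4 : B < 4 * T := by
      have h3 : (b : ℝ) ^ i * B / 4 < T * (b : ℝ) ^ i := by
        rw [← hj]
        have : 2 ≤ (b : ℝ) ^ L := by nlinarith
        linarith
      have h4 : (b : ℝ) ^ i * B < (b : ℝ) ^ i * (4 * T) := by linarith
      exact lt_of_mul_lt_mul_left h4 hbi.le
    have hkey : ∀ n : ℤ, 1 / (8 * T) ≤ |-(t * (b : ℝ) ^ i / v) - n| := by
      intro n
      have hint : t + n * (b : ℤ) ^ (L - i) ≠ 0 := by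
        intro h3
        apply ht
        have h4 : (b : ℤ) ∣ (b : ℤ) ^ (L - i) := dvd_pow_self _ (by omega)
        have h5 : t = -(n * (b : ℤ) ^ (L - i)) := by linarith
        rw [h5]
        exact (dvd_neg).2 (h4.mul_left _)
      have hint' : (1 : ℝ) ≤ |(t : ℝ) + n * B| := by
        have h3 : (1 : ℤ) ≤ |t + n * (b : ℤ) ^ (L - i)| := Int.one_le_abs hint
        have h4 : ((1 : ℤ) : ℝ) ≤ ((|t + n * (b : ℤ) ^ (L - i)| : ℤ) : ℝ) := by exact_mod_cast h3
        rw [Int.cast_abs] at h4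
        push_cast at h4
        exact h4
      have he : -(t * (b : ℝ) ^ i / v) - n = -(((t : ℝ) + n * B) / B + t / (B * v)) := by
        have hvv : v + 1 = (b : ℝ) ^ i * B := by rw [← hj, hvd]; ring
        have e1 : (t : ℝ) * (b : ℝ) ^ i / v = t * (v + 1) / (B * v) := by
          rw [hvv]
          field_simp
        rw [e1]
        field_simp
        ring
      rw [he, abs_neg]
      have h3 : |((t : ℝ) + n * B) / B| - |(t : ℝ) / (B * v)| ≤
          |((t : ℝ) + n * B) / B + t / (B * v)| := by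
        have := abs_sub_abs_le_abs_sub (((t : ℝ) + n * B) / B) (-(t / (B * v)))
        rw [abs_neg, sub_neg_eq_add] at this
        exact this
      refine le_trans ?_ h3
      rw [abs_div, abs_div, abs_of_pos hB0, abs_of_pos (by positivity : (0 : ℝ) < B * v), ← hT]
      have h4 : T / (B * v) ≤ (1 / 2) / B := by
        rw [div_le_div_iff₀ (by positivity) hB0]
        have : T ≤ 1 / 2 * v := by nlinarith
        nlinarith
      have h5 : 1 / B ≤ |(t : ℝ) + n * B| / B := by gcongr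
      have h6 : 1 / (8 * T) ≤ (1 / 2) / B := by
        rw [div_le_div_iff₀ (by positivity) hB0]
        linarith
      have h7 : 1 / B - (1 / 2) / B = (1 / 2) / B := by ring
      linarith
    have hlow := low _ _ hkey
    have hpos : 0 < 1 / (8 * T) := by positivity
    have hpos' : 0 < ‖ee (-(t * (b : ℝ) ^ i / v)) - 1‖ := by linarith
    rw [sum_norm _ _ _ _ hpos', div_le_iff₀ hpos']
    have hn : ‖ee (m * (-(t * (b : ℝ) ^ i / v))) - 1‖ ≤ 2 := by
      refine (norm_sub_le _ _).trans ?_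
      rw [ee_norm, norm_one]
      norm_num
    have h9 : 4 * T * (4 * (1 / (8 * T))) = 2 := by field_simp; norm_num
    calc ‖ee (m * (-(t * (b : ℝ) ^ i / v))) - 1‖ ≤ 4 * T * (4 * (1 / (8 * T))) := by rw [h9]; exact hn
      _ ≤ (2 + 4 * T) * (4 * (1 / (8 * T))) := by gcongr; linarith
      _ ≤ (2 + 4 * T) * ‖ee (-(t * (b : ℝ) ^ i / v)) - 1‖ := by gcongr

end Pool.Agent.W351.ND.BD
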